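import Pool.Agent.helper55.NM.Spec2

set_option autoImplicit false

namespace Pool.Agent.helper9.NM

open Pool.Agent.NM

theorem FLR : FLR_stmt := by
  intro ε hε
  obtain ⟨n1, hn1⟩ := exists_nat_gt (1 / (3 * ε))
  refine ⟨max 6 n1, fun n k hn h1 h2 => ?_⟩
  have hn6 : 6 ≤ n := le_trans (le_max_left _ _) hn
  have hnn : n1 ≤ n := le_trans (le_max_right _ _) hn
  have hnR : (n1 : ℝ) ≤ n := by exact_mod_cast hnn
  have hn6R : (6 : ℝ) ≤ n := by exact_mod_cast hn6
  have h3 : 1 < 3 * ε * n := by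
    have h4 : 1 / (3 * ε) < n := lt_of_lt_of_le hn1 hnR
    rw [div_lt_iff₀ (by positivity)] at h4
    linarith
  have h5 : (n : ℝ) + 1 < 3 * k := by nlinarith
  have h6 : 2 * (k : ℝ) ≤ n := by nlinarith
  have h7 : n + 1 < 3 * k := by exact_mod_cast h5
  have h8 : 2 * k ≤ n := by exact_mod_cast h6
  refine ⟨?_, by omega, by omega⟩
  exact Nat.div_eq_of_lt_le (by omega) (by omega)

end Pool.Agent.helper9.NM
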